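import Pool.Agent.R689.BProd3

/-!
# The minimal Boolean `(m, n)`-product is not the smallest one

For all infinite cardinals `n ≤ m` there are a family of two countable Boolean algebras and an
`(m, n)`-product of the family that is not above the minimal `(m, n)`-product.
-/

set_option autoImplicit false

namespace Pool.Agent.Results.MP_6fd33d_al.MinimalNotSmallest

open Cardinal Pool.Agent.R689.BProd

lemma pair_of_indep {R : Type} [BooleanAlgebra R] (j : Bool → BoundedLatticeHom A R)
    (h : ∀ (T' : Finset Bool) (a : Bool → A), (∀ t ∈ T', a t ≠ ⊥) →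
      T'.inf (fun t => j t (a t)) ≠ ⊥) (c d : A) (hc : c ≠ ⊥) (hd : d ≠ ⊥) :
    j false c ⊓ j true d ≠ ⊥ := by
  have h1 := h {false, true} (fun t => if t then d else c) (by
    intro t _
    cases t
    · exact hc
    · exact hd)
  rwa [Finset.inf_insert, Finset.inf_singleton] at h1

/-- the meet over a set `T'` of indices -/
lemma isGLB_pair {R : Type} [BooleanAlgebra R] (j : Bool → BoundedLatticeHom A R) (T' : Set Bool)
    (a : Bool → A) : ∃ a' : Bool → A, (∀ t ∈ T', a' t = a t) ∧ (∀ t, t ∉ T' → a' t = ⊤) ∧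
    IsGLB ((fun t => j t (a t)) '' T') (j false (a' false) ⊓ j true (a' true)) := by
  classical
  refine ⟨fun t => if t ∈ T' then a t else ⊤, fun t ht => if_pos ht, fun t ht => if_neg ht,
    ?_, ?_⟩
  · rintro _ ⟨t, ht, rfl⟩
    have h3 : (if t ∈ T' then a t else ⊤) = a t := if_pos ht
    change _ ≤ j t (a t)
    rw [← h3]
    cases t
    · exact inf_le_left
    · exact inf_le_right
  · intro u hu
    have h4 : ∀ t, u ≤ j t (if t ∈ T' then a t else ⊤) := by
      intro t
      by_cases ht : t ∈ T'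
      · rw [if_pos ht]
        exact hu ⟨t, ht, rfl⟩
      · rw [if_neg ht, map_top]
        exact le_top
    exact le_inf (h4 false) (h4 true)

lemma indep_of_pair' {R : Type} [BooleanAlgebra R] (j : Bool → BoundedLatticeHom A R)
    (h : ∀ c d, c ≠ ⊥ → d ≠ ⊥ → j false c ⊓ j true d ≠ ⊥) (n : Cardinal.{0}) :
    IsIndep (A := fun _ : Bool => A) n j := by
  intro T' a _ ha
  obtain ⟨a', h1, h2, h3⟩ := isGLB_pair j T' a
  refine ⟨_, h3, ?_⟩
  have h4 : ∀ t, a' t ≠ ⊥ := by
    intro t
    by_cases ht : t ∈ T'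
    · rw [h1 t ht]; exact ha t ht
    · rw [h2 t ht]; exact top_ne_bot
  exact h _ _ (h4 false) (h4 true)

lemma dense_of_minimal {R : Type} [BooleanAlgebra R] (j : Bool → BoundedLatticeHom A R)
    (n : Cardinal.{0}) (h : IsMinimalN (A := fun _ : Bool => A) n j) (b : R) (hb : b ≠ ⊥) :
    ∃ c d : A, j false c ⊓ j true d ≠ ⊥ ∧ j false c ⊓ j true d ≤ b := by
  obtain ⟨T', a, c, _, h1, h2, h4⟩ := h b hb
  obtain ⟨a', _, _, h3⟩ := isGLB_pair j T' a
  have h5 := h3.unique h1
  exact ⟨a' false, a' true, by rwa [h5], by rwa [h5]⟩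

theorem result (m n : Cardinal.{0}) (hn : ℵ₀ ≤ n) (hnm : n ≤ m) :
    ∃ (A : Bool → Type) (_ : ∀ t, BooleanAlgebra (A t)),
      (∀ t, Nontrivial (A t)) ∧ (∀ t, Countable (A t)) ∧
      (∃ (M : Type) (_ : BooleanAlgebra M) (j : ∀ t, BoundedLatticeHom (A t) M),
        IsProduct m j ∧ IsIndep n j ∧ IsMinimalN n j) ∧
      ∃ (B : Type) (_ : BooleanAlgebra B) (i : ∀ t, BoundedLatticeHom (A t) B),
        IsProduct m i ∧ IsIndep n i ∧
        ∀ (M : Type) (_ : BooleanAlgebra M) (j : ∀ t, BoundedLatticeHom (A t) M),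
          IsProduct m j → IsIndep n j → IsMinimalN n j →
            ¬ ∃ h : BoundedLatticeHom B M, IsMHom m h ∧ ∀ t a, j t a = h (i t a) := by
  have hm : ℵ₀ ≤ m := hn.trans hnm
  refine ⟨fun _ => A, fun _ => inferInstance, fun _ => inferInstance, fun _ => ?_,
    ⟨MM m hm, inferInstance, cod m hm jj, isProduct_M m hm,
      indep_of_pair' _ (pair_of_indep _ (isProduct_M m hm).indep) n, ?_⟩,
    BB m hm, inferInstance, cod m hm ii, isProduct_B m hm,
      indep_of_pair' _ (pair_of_indep _ (isProduct_B m hm).indep) n, ?_⟩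
  · exact TopologicalSpace.Clopens.countable_iff_secondCountable.2 inferInstance
  · intro b hb
    obtain ⟨c, d, h1, h2⟩ := pairDense_M m hm b hb
    refine ⟨Set.univ, fun t => if t then d else c,
      cod (F := fun _ : Bool => A) m hm jj false c ⊓ cod (F := fun _ : Bool => A) m hm jj true d,
      ?_, ?_, h1, h2⟩
    · exact (Cardinal.mk_le_aleph0 (α := (Set.univ : Set Bool))).trans hn
    · refine ⟨?_, ?_⟩
      · rintro _ ⟨t, _, rfl⟩
        cases t
        · exact inf_le_left
        · exact inf_le_right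
      · intro u hu
        exact le_inf (hu ⟨false, trivial, rfl⟩) (hu ⟨true, trivial, rfl⟩)
  · rintro M _ j hj _ hmin ⟨h, hh, hhj⟩
    exact core j (dense_of_minimal j n hmin) (pair_of_indep j hj.indep) h hh hhj

end Pool.Agent.Results.MP_6fd33d_al.MinimalNotSmallest
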